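import Mathlib

/-!
The inversion distribution on the 2143-avoiding linear extensions of the rectangular poset
`EN_{s,2}`.

We identify `x ∈ [st]` with the element `x - 1` of `Fin (s * t)`, so that `q(x) = (x - 1) / t` and
`r(x) = (x - 1) % t`.
-/

set_option autoImplicit false

namespace Pool.Agent.Results.MP_490dbb_co.InversionDistribution

open Finset Polynomial

/-- The order of the poset `EN_{s,t}` on 0-based elements `x = q t + r`:
`x ≼ y` iff `r(x) ≤ r(y)` and `q(x) ≥ q(y)`. -/
def ENle (t x y : ℕ) : Prop := x % t ≤ y % t ∧ y / t ≤ x / t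

/-- The permutation `π(1) π(2) ⋯ π(st)` is a linear extension of `EN_{s,t}`. -/
def IsLinearExtension (s t : ℕ) (π : Equiv.Perm (Fin (s * t))) : Prop :=
  ∀ i j : Fin (s * t), ENle t (π i) (π j) → i ≤ j

/-- The permutation `π` contains the word `σ` as a pattern: some subsequence of `π` has the same
relative order as `σ`. -/
def Contains {n k : ℕ} (π : Equiv.Perm (Fin n)) (σ : Fin k → ℕ) : Prop :=
  ∃ f : Fin k → Fin n, StrictMono f ∧ ∀ a b, π (f a) < π (f b) ↔ σ a < σ b

/-- The number of inversions of `π`. -/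
def inv {n : ℕ} (π : Equiv.Perm (Fin n)) : ℕ :=
  (univ.filter (fun p : Fin n × Fin n => p.1 < p.2 ∧ π p.2 < π p.1)).card

open Classical in
/-- The linear extensions of `EN_{s,t}` that avoid `2143`. -/
noncomputable def avoiders (s t : ℕ) : Finset (Equiv.Perm (Fin (s * t))) :=
  univ.filter (fun π => IsLinearExtension s t π ∧ ¬ Contains π ![2, 1, 4, 3])

/-- The inversion generating polynomial `EN_{s,t}(2143)(q)`. -/
noncomputable def genPoly (s t : ℕ) : ℕ[X] := ∑ π ∈ avoiders s t, X ^ inv π

/-! ### Positions of values -/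

/-- The position of the value `v`, as a natural number. -/
def pv {n : ℕ} (π : Equiv.Perm (Fin n)) (v : ℕ) : ℕ :=
  if h : v < n then (π.symm ⟨v, h⟩).val else v

lemma pv_lt {n : ℕ} (π : Equiv.Perm (Fin n)) {v : ℕ} (h : v < n) : pv π v < n := by
  unfold pv; rw [dif_pos h]; exact (π.symm ⟨v, h⟩).2

lemma pv_apply {n : ℕ} (π : Equiv.Perm (Fin n)) (i : Fin n) : pv π (π i) = i := by
  unfold pv; rw [dif_pos (π i).2]; simp

lemma pv_inj {n : ℕ} (π : Equiv.Perm (Fin n)) {v w : ℕ} (hv : v < n) (hw : w < n)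
    (h : pv π v = pv π w) : v = w := by
  unfold pv at h
  rw [dif_pos hv, dif_pos hw] at h
  have := π.symm.injective (Fin.ext h)
  simpa using this

lemma exists_pos {n : ℕ} (π : Equiv.Perm (Fin n)) {v : ℕ} (hv : v < n) :
    ∃ i : Fin n, (π i).val = v ∧ i.val = pv π v := by
  refine ⟨π.symm ⟨v, hv⟩, ?_, ?_⟩
  · simp
  · unfold pv; rw [dif_pos hv]

lemma contains_iff {n : ℕ} (π : Equiv.Perm (Fin n)) :
    Contains π ![2, 1, 4, 3] ↔ ∃ x₁ x₂ x₃ x₄ : ℕ, x₂ < x₁ ∧ x₁ < x₄ ∧ x₄ < x₃ ∧ x₃ < n ∧
      pv π x₁ < pv π x₂ ∧ pv π x₂ < pv π x₃ ∧ pv π x₃ < pv π x₄ := by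
  constructor
  · rintro ⟨f, hf, h⟩
    refine ⟨π (f 0), π (f 1), π (f 2), π (f 3), ?_, ?_, ?_, (π (f 2)).2, ?_, ?_, ?_⟩
    · exact (h 1 0).2 (by decide)
    · exact (h 0 3).2 (by decide)
    · exact (h 3 2).2 (by decide)
    · rw [pv_apply, pv_apply]; exact hf (by decide)
    · rw [pv_apply, pv_apply]; exact hf (by decide)
    · rw [pv_apply, pv_apply]; exact hf (by decide)
  · rintro ⟨x₁, x₂, x₃, x₄, h21, h14, h43, h3, p12, p23, p34⟩
    obtain ⟨i₁, hi₁, hp₁⟩ := exists_pos π (v := x₁) (by omega)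
    obtain ⟨i₂, hi₂, hp₂⟩ := exists_pos π (v := x₂) (by omega)
    obtain ⟨i₃, hi₃, hp₃⟩ := exists_pos π (v := x₃) (by omega)
    obtain ⟨i₄, hi₄, hp₄⟩ := exists_pos π (v := x₄) (by omega)
    refine ⟨![i₁, i₂, i₃, i₄], ?_, ?_⟩
    · rw [Fin.strictMono_iff_lt_succ]
      intro a
      fin_cases a
      · show i₁ < i₂; rw [Fin.lt_def]; omega
      · show i₂ < i₃; rw [Fin.lt_def]; omega
      · show i₃ < i₄; rw [Fin.lt_def]; omega
    · intro a b
      fin_cases a <;> fin_cases b <;> simp [Fin.lt_def, hi₁, hi₂, hi₃, hi₄] <;> omega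

/-! ### The order relations in an avoider -/

/-- The order relations that characterise the `2143`-avoiding linear extensions of `EN_{s,2}`. -/
def Good (s : ℕ) (π : Equiv.Perm (Fin (s * 2))) : Prop :=
  (∀ a b, a < b → b < s → pv π (2 * b) < pv π (2 * a)) ∧
  (∀ a b, a < b → b < s → pv π (2 * b + 1) < pv π (2 * a + 1)) ∧
  (∀ a b, b ≤ a → a < s → pv π (2 * a) < pv π (2 * b + 1)) ∧
  (∀ a b, b + 2 ≤ a → a < s → pv π (2 * a + 1) < pv π (2 * b))

lemma lin_lt {s : ℕ} {π : Equiv.Perm (Fin (s * 2))} (h : IsLinearExtension s 2 π) {v w : ℕ}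
    (hv : v < s * 2) (hw : w < s * 2) (hne : v ≠ w) (h1 : v % 2 ≤ w % 2) (h2 : w / 2 ≤ v / 2) :
    pv π v < pv π w := by
  obtain ⟨i, hi, hpi⟩ := exists_pos π hv
  obtain ⟨j, hj, hpj⟩ := exists_pos π hw
  have := h i j (by rw [hi, hj]; exact ⟨h1, h2⟩)
  rw [Fin.le_def] at this
  rcases Nat.lt_or_ge (pv π v) (pv π w) with h3 | h3
  · exact h3
  · exact absurd (pv_inj π hv hw (by omega)) hne

lemma good_of_avoid {s : ℕ} {π : Equiv.Perm (Fin (s * 2))} (h : IsLinearExtension s 2 π)
    (hc : ¬ Contains π ![2, 1, 4, 3]) : Good s π := by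
  have c1 : ∀ a b, a < b → b < s → pv π (2 * b) < pv π (2 * a) := fun a b hab hb =>
    lin_lt h (by omega) (by omega) (by omega) (by omega) (by omega)
  have c2 : ∀ a b, a < b → b < s → pv π (2 * b + 1) < pv π (2 * a + 1) := fun a b hab hb =>
    lin_lt h (by omega) (by omega) (by omega) (by omega) (by omega)
  have c3 : ∀ a b, b ≤ a → a < s → pv π (2 * a) < pv π (2 * b + 1) := fun a b hab hb =>
    lin_lt h (by omega) (by omega) (by omega) (by omega) (by omega)
  refine ⟨c1, c2, c3, ?_⟩
  intro a b hab ha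
  by_contra hcon
  apply hc
  rw [contains_iff]
  refine ⟨2 * (b + 1), 2 * b, 2 * a + 1, 2 * (b + 1) + 1, by omega, by omega, by omega, by omega,
    c1 b (b + 1) (by omega) (by omega), ?_, c2 (b + 1) a (by omega) (by omega)⟩
  rcases Nat.lt_or_ge (pv π (2 * b)) (pv π (2 * a + 1)) with h3 | h3
  · exact h3
  · have : 2 * a + 1 = 2 * b := pv_inj π (by omega) (by omega) (by omega)
    omega

/-- The non-inversions of an avoider. -/
lemma good_noninv {s : ℕ} {π : Equiv.Perm (Fin (s * 2))} (h : Good s π) {v w : ℕ} (hvw : v < w)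
    (hw : w < s * 2) : pv π v < pv π w ↔
      v % 2 = 0 ∧ (w = v + 1 ∨ (w = v + 3 ∧ pv π v < pv π (v + 3))) := by
  obtain ⟨c1, c2, c3, c4⟩ := h
  obtain ⟨a, rfl | rfl⟩ : ∃ a, v = 2 * a ∨ v = 2 * a + 1 := ⟨v / 2, by omega⟩ <;>
  obtain ⟨b, rfl | rfl⟩ : ∃ b, w = 2 * b ∨ w = 2 * b + 1 := ⟨w / 2, by omega⟩
  · have := c1 a b (by omega) (by omega)
    constructor
    · intro h; omega
    · intro h; omega
  · rcases Nat.lt_trichotomy b (a + 1) with h1 | h1 | h1
    · have hba : b = a := by omega
      subst hba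
      have := c3 b b le_rfl (by omega)
      constructor
      · intro _; exact ⟨by omega, Or.inl rfl⟩
      · intro _; exact this
    · subst h1
      have e : 2 * (a + 1) + 1 = 2 * a + 3 := by ring
      rw [e]
      constructor
      · intro h; exact ⟨by omega, Or.inr ⟨rfl, h⟩⟩
      · rintro ⟨-, h | h⟩
        · omega
        · exact h.2
    · have := c4 b a (by omega) (by omega)
      constructor
      · intro h; omega
      · intro h; omega
  · have := c3 b a (by omega) (by omega)
    constructor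
    · intro h; omega
    · intro h; omega
  · have := c2 a b (by omega) (by omega)
    constructor
    · intro h; omega
    · intro h; omega

lemma avoid_of_good {s : ℕ} {π : Equiv.Perm (Fin (s * 2))} (h : Good s π) :
    IsLinearExtension s 2 π ∧ ¬ Contains π ![2, 1, 4, 3] := by
  have hg := h
  obtain ⟨c1, c2, c3, c4⟩ := h
  constructor
  · intro i j hij
    obtain ⟨h1, h2⟩ := hij
    have hi := (π i).2
    have hj := (π j).2
    have ei := pv_apply π i
    have ej := pv_apply π j
    generalize (π i).val = v at *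
    generalize (π j).val = w at *
    rw [Fin.le_def, ← ei, ← ej]
    by_cases hvw : v = w
    · rw [hvw]
    apply le_of_lt
    obtain ⟨a, rfl | rfl⟩ : ∃ a, v = 2 * a ∨ v = 2 * a + 1 := ⟨v / 2, by omega⟩ <;>
    obtain ⟨b, rfl | rfl⟩ : ∃ b, w = 2 * b ∨ w = 2 * b + 1 := ⟨w / 2, by omega⟩
    · exact c1 b a (by omega) (by omega)
    · exact c3 a b (by omega) (by omega)
    · omega
    · exact c2 b a (by omega) (by omega)
  · rw [contains_iff]
    rintro ⟨x₁, x₂, x₃, x₄, h21, h14, h43, h3, p12, p23, p34⟩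
    have e1 := (good_noninv hg (v := x₁) (w := x₃) (by omega) (by omega)).1 (by omega)
    have e2 := (good_noninv hg (v := x₁) (w := x₄) (by omega) (by omega)).1 (by omega)
    have e3 := (good_noninv hg (v := x₂) (w := x₃) (by omega) (by omega)).1 (by omega)
    have e4 := (good_noninv hg (v := x₂) (w := x₄) (by omega) (by omega)).1 (by omega)
    omega

lemma mem_avoiders {s : ℕ} {π : Equiv.Perm (Fin (s * 2))} : π ∈ avoiders s 2 ↔ Good s π := by
  classical
  unfold avoiders
  rw [mem_filter]
  constructor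
  · rintro ⟨-, h1, h2⟩
    exact good_of_avoid h1 h2
  · intro h
    exact ⟨mem_univ _, avoid_of_good h⟩

/-! ### The set of swapped blocks -/

/-- The blocks `{2a, 2a + 3}` in which the larger value comes first. -/
def swapSet (s : ℕ) (π : Equiv.Perm (Fin (s * 2))) : Finset ℕ :=
  (range (s - 1)).filter (fun a => pv π (2 * a + 3) < pv π (2 * a))

lemma mem_swapSet {s : ℕ} {π : Equiv.Perm (Fin (s * 2))} {a : ℕ} (ha : a + 1 < s) :
    a ∉ swapSet s π ↔ pv π (2 * a) < pv π (2 * a + 3) := by
  unfold swapSet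
  rw [mem_filter, mem_range]
  constructor
  · intro h
    rcases Nat.lt_trichotomy (pv π (2 * a)) (pv π (2 * a + 3)) with h1 | h1 | h1
    · exact h1
    · have := pv_inj π (by omega) (by omega) h1; omega
    · exact absurd ⟨by omega, h1⟩ h
  · rintro h ⟨-, h2⟩
    omega

lemma eq_of_swapSet {s : ℕ} {π π' : Equiv.Perm (Fin (s * 2))} (h : Good s π) (h' : Good s π')
    (hs : swapSet s π = swapSet s π') : π = π' := by
  have key : ∀ v w : ℕ, v < w → w < s * 2 → (pv π v < pv π w ↔ pv π' v < pv π' w) := by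
    intro v w hvw hw
    rw [good_noninv h hvw hw, good_noninv h' hvw hw]
    apply and_congr_right
    intro hv
    apply or_congr_right
    apply and_congr_right
    intro hw3
    obtain ⟨a, rfl⟩ : ∃ a, v = 2 * a := ⟨v / 2, by omega⟩
    rw [← mem_swapSet (by omega), ← mem_swapSet (by omega), hs]
  have key2 : ∀ v w : ℕ, v < s * 2 → w < s * 2 → pv π v < pv π w → pv π' v < pv π' w := by
    intro v w hv hw hlt
    rcases Nat.lt_trichotomy v w with h1 | h1 | h1
    · exact (key v w h1 hw).1 hlt
    · subst h1; omega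
    · rcases Nat.lt_trichotomy (pv π' v) (pv π' w) with h2 | h2 | h2
      · exact h2
      · have := pv_inj π' hv hw h2; omega
      · have := (key w v h1 hv).2 h2; omega
  have hmono : StrictMono (fun i => π'.symm (π i)) := by
    intro i j hij
    have h1 := key2 (π i) (π j) (π i).2 (π j).2 (by rw [pv_apply, pv_apply]; exact hij)
    unfold pv at h1
    rw [dif_pos (π i).2, dif_pos (π j).2] at h1
    exact h1
  have hid : (fun i => π'.symm (π i)) = id := hmono.eq_id
  apply Equiv.ext
  intro i
  have h2 : π'.symm (π i) = i := congrFun hid i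
  rw [← Equiv.symm_apply_eq, h2]

/-! ### Counting inversions -/

lemma card_lt_pairs (n : ℕ) :
    2 * (univ.filter (fun p : Fin n × Fin n => p.1 < p.2)).card + n = n * n := by
  have h1 : (univ.filter (fun p : Fin n × Fin n => p.1 < p.2)).card
      = (univ.filter (fun p : Fin n × Fin n => p.2 < p.1)).card := by
    apply card_nbij' (fun p => (p.2, p.1)) (fun p => (p.2, p.1))
    · intro p hp; simpa using hp
    · intro p hp; simpa using hp
    · intro p _; rfl
    · intro p _; rfl
  have h2 : (univ.filter (fun p : Fin n × Fin n => p.1 = p.2)).card = n := by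
    have : (univ.filter (fun p : Fin n × Fin n => p.1 = p.2)) = univ.image (fun i : Fin n => (i, i)) := by
      ext ⟨i, j⟩
      simp only [mem_filter, mem_univ, true_and, mem_image, Prod.mk.injEq]
      constructor
      · rintro rfl; exact ⟨i, rfl, rfl⟩
      · rintro ⟨a, rfl, rfl⟩; rfl
    rw [this, card_image_of_injective _ (fun i j h => (Prod.mk.inj h).1)]
    simp
  have h3 : (univ : Finset (Fin n × Fin n)).card = n * n := by simp
  have h4 : (univ : Finset (Fin n × Fin n)) = univ.filter (fun p : Fin n × Fin n => p.1 < p.2) ∪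
      (univ.filter (fun p : Fin n × Fin n => p.2 < p.1) ∪
        univ.filter (fun p : Fin n × Fin n => p.1 = p.2)) := by
    ext ⟨i, j⟩
    simp only [mem_union, mem_filter, mem_univ, true_and, true_iff]
    rcases lt_trichotomy i j with h | h | h
    · exact Or.inl h
    · exact Or.inr (Or.inr h)
    · exact Or.inr (Or.inl h)
  have h5 := h3
  rw [h4, card_union_of_disjoint, card_union_of_disjoint, h2, ← h1] at h5
  · omega
  · rw [disjoint_left]
    intro p hp hp'
    simp only [mem_filter, mem_univ, true_and] at hp hp'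
    rw [hp'] at hp; exact lt_irrefl _ hp
  · rw [disjoint_left]
    intro p hp hp'
    simp only [mem_union, mem_filter, mem_univ, true_and] at hp hp'
    rcases hp' with h | h
    · exact lt_asymm hp h
    · rw [h] at hp; exact lt_irrefl _ hp

lemma inv_add_noninv {n : ℕ} (π : Equiv.Perm (Fin n)) :
    inv π + (univ.filter (fun p : Fin n × Fin n => p.1 < p.2 ∧ π p.1 < π p.2)).card
      = (univ.filter (fun p : Fin n × Fin n => p.1 < p.2)).card := by
  unfold inv
  rw [← card_union_of_disjoint]
  · congr 1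
    ext p
    simp only [mem_union, mem_filter, mem_univ, true_and]
    constructor
    · rintro (h | h)
      · exact h.1
      · exact h.1
    · intro h
      rcases lt_trichotomy (π p.1) (π p.2) with h1 | h1 | h1
      · exact Or.inr ⟨h, h1⟩
      · exact absurd (π.injective h1) h.ne
      · exact Or.inl ⟨h, h1⟩
  · rw [disjoint_left]
    intro p hp hp'
    simp only [mem_filter, mem_univ, true_and] at hp hp'
    exact lt_asymm hp.2 hp'.2

lemma noninv_card {s : ℕ} (hs : 1 ≤ s) {π : Equiv.Perm (Fin (s * 2))} (h : Good s π) :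
    (univ.filter (fun p : Fin (s * 2) × Fin (s * 2) => p.1 < p.2 ∧ π p.1 < π p.2)).card
      + (swapSet s π).card = s + (s - 1) := by
  have hinj : Function.Injective (fun p : Fin (s * 2) × Fin (s * 2) => ((π p.1).val, (π p.2).val)) := by
    intro p q hpq
    have h1 := (Prod.mk.inj hpq).1
    have h2 := (Prod.mk.inj hpq).2
    exact Prod.ext (π.injective (Fin.ext h1)) (π.injective (Fin.ext h2))
  rw [← card_image_of_injective _ hinj]
  have himg : (univ.filter (fun p : Fin (s * 2) × Fin (s * 2) => p.1 < p.2 ∧ π p.1 < π p.2)).image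
      (fun p : Fin (s * 2) × Fin (s * 2) => ((π p.1).val, (π p.2).val))
      = (range s).image (fun a => (2 * a, 2 * a + 1)) ∪
        ((range (s - 1)) \ swapSet s π).image (fun a => (2 * a, 2 * a + 3)) := by
    ext ⟨v, w⟩
    simp only [mem_image, mem_filter, mem_univ, true_and, mem_union, mem_sdiff, mem_range,
      Prod.mk.injEq]
    constructor
    · rintro ⟨⟨i, j⟩, ⟨hij, hlt⟩, rfl, rfl⟩
      simp only at hij hlt ⊢
      have hj := (π j).2
      have h1 : pv π (π i) < pv π (π j) := by rw [pv_apply, pv_apply]; exact hij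
      rw [good_noninv h hlt hj] at h1
      rw [Fin.lt_def] at hlt
      generalize (π i).val = v at *
      generalize (π j).val = w at *
      obtain ⟨h2, h3 | h3⟩ := h1
      · left
        exact ⟨v / 2, by omega, by omega, by omega⟩
      · right
        refine ⟨v / 2, ⟨by omega, ?_⟩, by omega, by omega⟩
        rw [mem_swapSet (by omega)]
        have e : 2 * (v / 2) = v := by omega
        rw [e]
        exact h3.2
    · rintro (⟨a, ha, rfl, rfl⟩ | ⟨a, ⟨ha, hA⟩, rfl, rfl⟩)
      · obtain ⟨i, hi, hpi⟩ := exists_pos π (v := 2 * a) (by omega)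
        obtain ⟨j, hj, hpj⟩ := exists_pos π (v := 2 * a + 1) (by omega)
        refine ⟨(i, j), ⟨?_, ?_⟩, hi, hj⟩
        · show i < j
          rw [Fin.lt_def, hpi, hpj]
          exact h.2.2.1 a a le_rfl ha
        · show π i < π j
          rw [Fin.lt_def]; omega
      · obtain ⟨i, hi, hpi⟩ := exists_pos π (v := 2 * a) (by omega)
        obtain ⟨j, hj, hpj⟩ := exists_pos π (v := 2 * a + 3) (by omega)
        refine ⟨(i, j), ⟨?_, ?_⟩, hi, hj⟩
        · show i < j
          rw [Fin.lt_def, hpi, hpj]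
          exact (mem_swapSet (by omega)).1 hA
        · show π i < π j
          rw [Fin.lt_def]; omega
  rw [himg, card_union_of_disjoint, card_image_of_injective, card_image_of_injective, card_range,
    card_sdiff_of_subset, card_range]
  · have : (swapSet s π).card ≤ s - 1 := by
      rw [← card_range (s - 1)]
      exact card_le_card (filter_subset _ _)
    omega
  · exact filter_subset _ _
  · intro a b hab
    have := (Prod.mk.inj hab).1
    omega
  · intro a b hab
    have := (Prod.mk.inj hab).1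
    omega
  · rw [disjoint_left]
    rintro ⟨v, w⟩ h1 h2
    simp only [mem_image, Prod.mk.injEq] at h1 h2
    obtain ⟨a, -, h3, h4⟩ := h1
    obtain ⟨b, -, h5, h6⟩ := h2
    omega

lemma inv_eq {s : ℕ} (hs : 1 ≤ s) {π : Equiv.Perm (Fin (s * 2))} (h : Good s π) :
    inv π = (2 * s - 1) * (s - 1) + (swapSet s π).card := by
  have h1 := inv_add_noninv π
  have h2 := card_lt_pairs (s * 2)
  have h3 := noninv_card hs h
  obtain ⟨r, rfl⟩ : ∃ r, s = r + 1 := ⟨s - 1, by omega⟩
  have e1 : 2 * (r + 1) - 1 = 2 * r + 1 := by omega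
  have e2 : r + 1 - 1 = r := by omega
  rw [e1, e2]
  rw [e2] at h3
  have e3 : (r + 1) * 2 * ((r + 1) * 2) = 4 * (r * r) + 8 * r + 4 := by ring
  have e4 : (2 * r + 1) * r = 2 * (r * r) + r := by ring
  omega

/-! ### Every set of blocks occurs -/

/-- The position of the value `v` in the avoider with swap set `A`. -/
def posFun (s : ℕ) (A : Finset ℕ) (v : ℕ) : ℕ :=
  if v % 2 = 0 then
    (if v / 2 + 1 = s then 0 else 2 * (s - 1 - v / 2) - 1 + (if v / 2 ∈ A then 1 else 0))
  else (if v / 2 = 0 then 2 * s - 1 else 2 * (s - v / 2) - (if v / 2 - 1 ∈ A then 1 else 0))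

lemma posFun_last (s : ℕ) (A : Finset ℕ) (hs : 1 ≤ s) : posFun s A (2 * (s - 1)) = 0 := by
  unfold posFun
  rw [if_pos (by omega), if_pos (by omega)]

lemma posFun_even (s : ℕ) (A : Finset ℕ) (a : ℕ) (ha : a + 1 < s) :
    posFun s A (2 * a) = 2 * (s - 1 - a) - 1 + (if a ∈ A then 1 else 0) := by
  unfold posFun
  have e : 2 * a / 2 = a := by omega
  rw [if_pos (by omega), e, if_neg (by omega)]

lemma posFun_one (s : ℕ) (A : Finset ℕ) : posFun s A 1 = 2 * s - 1 := by
  unfold posFun
  rw [if_neg (by omega), if_pos (by omega)]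

lemma posFun_odd (s : ℕ) (A : Finset ℕ) (a : ℕ) :
    posFun s A (2 * (a + 1) + 1) = 2 * (s - (a + 1)) - (if a ∈ A then 1 else 0) := by
  unfold posFun
  have e : (2 * (a + 1) + 1) / 2 = a + 1 := by omega
  rw [if_neg (by omega), e, if_neg (by omega), Nat.add_sub_cancel]

lemma posFun_lt (s : ℕ) (A : Finset ℕ) {v : ℕ} (hv : v < s * 2) : posFun s A v < s * 2 := by
  unfold posFun
  split_ifs <;> omega

lemma posFun_inj (s : ℕ) (A : Finset ℕ) {v w : ℕ} (hv : v < s * 2) (hw : w < s * 2)
    (h : posFun s A v = posFun s A w) : v = w := by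
  unfold posFun at h
  by_cases hc : v / 2 = w / 2 - 1
  · rw [hc] at h
    by_cases hc' : w / 2 = v / 2 - 1
    · rw [hc'] at h
      split_ifs at h <;> omega
    · split_ifs at h <;> omega
  · by_cases hc' : w / 2 = v / 2 - 1
    · rw [hc'] at h
      split_ifs at h <;> omega
    · split_ifs at h <;> omega

lemma exists_of_set (s : ℕ) (hs : 1 ≤ s) (A : Finset ℕ) (hA : A ⊆ range (s - 1)) :
    ∃ π : Equiv.Perm (Fin (s * 2)), Good s π ∧ swapSet s π = A := by
  let g : Fin (s * 2) → Fin (s * 2) := fun v => ⟨posFun s A v, posFun_lt s A v.2⟩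
  have hg : Function.Injective g := by
    intro v w h
    exact Fin.ext (posFun_inj s A v.2 w.2 (Fin.mk.inj h))
  let e : Equiv.Perm (Fin (s * 2)) := Equiv.ofBijective g (Finite.injective_iff_bijective.1 hg)
  have hpv : ∀ v, v < s * 2 → pv e.symm v = posFun s A v := by
    intro v hv
    unfold pv
    rw [dif_pos hv]
    rfl
  refine ⟨e.symm, ⟨?_, ?_, ?_, ?_⟩, ?_⟩
  · intro a b hab hb
    rw [hpv _ (by omega), hpv _ (by omega), posFun_even s A a (by omega)]
    by_cases hbs : b + 1 = s
    · have : b = s - 1 := by omega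
      rw [this, posFun_last s A hs]; omega
    · rw [posFun_even s A b (by omega)]
      split_ifs <;> omega
  · intro a b hab hb
    obtain ⟨b, rfl⟩ : ∃ b', b = b' + 1 := ⟨b - 1, by omega⟩
    rw [hpv _ (by omega), hpv _ (by omega), posFun_odd]
    rcases Nat.eq_zero_or_pos a with rfl | ha
    · rw [mul_zero, zero_add, posFun_one]; split_ifs <;> omega
    · obtain ⟨a, rfl⟩ : ∃ a', a = a' + 1 := ⟨a - 1, by omega⟩
      rw [posFun_odd]
      split_ifs <;> omega
  · intro a b hba ha
    rw [hpv _ (by omega), hpv _ (by omega)]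
    have h1 : posFun s A (2 * a) ≤ 2 * (s - 1 - a) := by
      by_cases has : a + 1 = s
      · have : a = s - 1 := by omega
        rw [this, posFun_last s A hs]; omega
      · rw [posFun_even s A a (by omega)]
        split_ifs <;> omega
    rcases Nat.eq_zero_or_pos b with rfl | hb
    · rw [mul_zero, zero_add, posFun_one]; omega
    · obtain ⟨b, rfl⟩ : ∃ b', b = b' + 1 := ⟨b - 1, by omega⟩
      rw [posFun_odd]
      split_ifs <;> omega
  · intro a b hba ha
    obtain ⟨a, rfl⟩ : ∃ a', a = a' + 1 := ⟨a - 1, by omega⟩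
    rw [hpv _ (by omega), hpv _ (by omega), posFun_odd, posFun_even s A b (by omega)]
    split_ifs <;> omega
  · ext a
    unfold swapSet
    rw [mem_filter, mem_range]
    constructor
    · rintro ⟨ha, h⟩
      have e3 : 2 * a + 3 = 2 * (a + 1) + 1 := by ring
      rw [hpv _ (by omega), hpv _ (by omega), e3, posFun_odd, posFun_even s A a (by omega)] at h
      by_contra hcon
      rw [if_neg hcon] at h
      omega
    · intro ha
      have ha' := mem_range.1 (hA ha)
      refine ⟨ha', ?_⟩
      have e3 : 2 * a + 3 = 2 * (a + 1) + 1 := by ring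
      rw [hpv _ (by omega), hpv _ (by omega), e3, posFun_odd, posFun_even s A a (by omega),
        if_pos ha]
      omega

/-- For every `s ≥ 1`, the inversion generating polynomial of the `2143`-avoiding linear
extensions of `EN_{s,2}` is `q^((2s-1)(s-1)) (1+q)^(s-1)`. -/
theorem result (s : ℕ) (hs : 1 ≤ s) :
    genPoly s 2 = X ^ ((2 * s - 1) * (s - 1)) * (1 + X) ^ (s - 1) := by
  unfold genPoly
  have h1 : ∑ π ∈ avoiders s 2, (X : ℕ[X]) ^ inv π
      = ∑ A ∈ (range (s - 1)).powerset, X ^ ((2 * s - 1) * (s - 1) + A.card) := by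
    refine sum_nbij (swapSet s) ?_ ?_ ?_ ?_
    · intro π _
      rw [mem_powerset]
      exact filter_subset _ _
    · intro π hπ π' hπ' h
      exact eq_of_swapSet (mem_avoiders.1 hπ) (mem_avoiders.1 hπ') h
    · intro A hA
      obtain ⟨π, h2, h3⟩ := exists_of_set s hs A (mem_powerset.1 hA)
      exact ⟨π, mem_avoiders.2 h2, h3⟩
    · intro π hπ
      rw [inv_eq hs (mem_avoiders.1 hπ)]
  rw [h1]
  simp only [pow_add]
  rw [← mul_sum]
  congr 1
  have h4 := sum_pow_mul_eq_add_pow (X : ℕ[X]) 1 (range (s - 1))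
  rw [card_range] at h4
  rw [add_comm, ← h4]
  exact sum_congr rfl fun A _ => by rw [one_pow, mul_one]

end Pool.Agent.Results.MP_490dbb_co.InversionDistribution
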